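import Pool.Agent.H45.CV.Bar

/-!
# At least half of the central values exceed every power `(log N)^(-A)`, `A > 3/2`

For the newforms of weight two and prime level `N` with even functional equation: for every `η > 0` there
is a `κ > 0` such that for every `ε > 0` and all large primes `N` at least the proportion `1/2 - η` of the
central values lies between `κ (log N)^(-3/2)` and `(log N)^(-1/2 + ε)`. So the exponent `2` of the theorem
of Iwaniec and Sarnak (at least half of the values exceed `(log N)^(-2)`) can be replaced by every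
`A > 3/2`; by the library theorem `LargeValuesAreRare` it cannot be replaced by any `A < 1/2`.
-/

set_option autoImplicit false

namespace Pool.Agent.Results.MP_cc4f83_nt.HalfAboveThreeHalves

open Filter Topology
open Pool.Agent.Results.MP_cc4f83_nt.LargeValuesAreRare Pool.Agent.H45.CV

/-- **At least half of the central values are between `κ (log N)^(-3/2)` and `(log N)^(-1/2 + ε)`.** -/
theorem result (c B : ℝ) (M : ℕ → ℝ) (N₀ : ℕ) (H : ℕ → Family) (hc : 0 < c)
    (hK : Known c B M N₀ H) :
    (∀ η : ℝ, 0 < η → ∃ κ : ℝ, 0 < κ ∧ ∀ ε : ℝ, 0 < ε → ∀ᶠ N : ℕ in primes,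
      1 / 2 - η ≤ share (H N) fun f =>
        κ * (Real.log N) ^ (-(3 / 2) : ℝ) < (H N).value f ∧
          (H N).value f ≤ (Real.log N) ^ (-(1 / 2) + ε)) ∧
    ∀ A : ℝ, 3 / 2 < A →
      1 / 2 ≤ liminf (fun N : ℕ => proportion (H N) ((Real.log N) ^ (-A))) primes := by
  refine ⟨fun η hη => ?_, fun A hA => liminf_ge hc hK hA⟩
  obtain ⟨κ, hκ, h1⟩ := low hc hK (half_pos hη)
  refine ⟨κ, hκ, fun ε hε => ?_⟩
  filter_upwards [h1, (up hc hK hε).eventually_lt_const (half_pos hη),
    tlog.eventually_ge_atTop 1] with N h2 h3 h4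
  have hy : 0 < Real.log N := by linarith
  have h5 := h2 (κ * (Real.log N) ^ (-(3 / 2) : ℝ)) (by positivity) (le_of_eq (thr hy))
  have h6 : proportion (H N) (κ * (Real.log N) ^ (-(3 / 2) : ℝ)) ≤
      share (H N) (fun f => κ * (Real.log N) ^ (-(3 / 2) : ℝ) < (H N).value f ∧
        (H N).value f ≤ (Real.log N) ^ (-(1 / 2) + ε)) +
        proportion (H N) ((Real.log N) ^ (-(1 / 2) + ε)) := by
    rw [proportion_eq, proportion_eq]
    refine share_or_le fun f hf => ?_
    rcases le_or_gt ((H N).value f) ((Real.log N) ^ (-(1 / 2) + ε)) with h | h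
    · exact Or.inl ⟨hf, h⟩
    · exact Or.inr h
  linarith

end Pool.Agent.Results.MP_cc4f83_nt.HalfAboveThreeHalves
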