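import Pool.Agent.H45.CV.Bar

/-!
# The only way in which Q1 can fail

For the newforms of weight two and prime level with even functional equation. If Q1 is false, then there
are primes `N_k → ∞` such that, among the forms of level `N_k`, one half of the central values are between
`(log N_k)^(-3/2 - ε)` and `(log N_k)^(-1/2 + ε)`, for every `ε > 0`, and the other half are smaller than every
power of `log N_k`, and conversely. The same holds for the weaker question on the nonvanishing, with the value
zero for the second half. In these cases the mollified values have in the limit the law with the mass `1/2` at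
each of the points `0`, `2`.

This is a corrected version (with the correct size of the mollifiers) of a theorem of helper50.
-/

set_option autoImplicit false

namespace Pool.Agent.Results.MP_cc4f83_nt.HalfHalfLaw

open Filter Topology
open Pool.Agent.Results.MP_cc4f83_nt.LargeValuesAreRare Pool.Agent.H45.CV

/-- **The only way in which Q1 can fail.** -/
theorem result (c B : ℝ) (M : ℕ → ℝ) (N₀ : ℕ) (H : ℕ → Family) (hc : 0 < c)
    (hK : Known c B M N₀ H) :
    -- (1) the only way in which Q1 can fail
    (¬ Q1 H ↔ ∃ n : ℕ → ℕ, Tendsto n atTop primes ∧ HalfBetween H n ∧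
      ∀ A : ℝ, 3 / 2 < A → Tendsto (fun k => share (H (n k)) fun f =>
        (H (n k)).value f ≤ (Real.log (n k)) ^ (-A)) atTop (𝓝 (1 / 2))) ∧
    -- (2) the only way in which more than half of the values can fail to be nonzero
    (¬ Q0 H ↔ ∃ n : ℕ → ℕ, Tendsto n atTop primes ∧ HalfBetween H n ∧
      Tendsto (fun k => share (H (n k)) fun f => (H (n k)).value f = 0) atTop (𝓝 (1 / 2))) ∧
    -- (3) in these cases the mollified values are nearly `0` or `2`
    (∀ (δ D : ℝ) (n : ℕ → ℕ) (T : ℕ → ℝ) (x : ℕ → ℕ → ℝ), 0 < δ → Tendsto n atTop primes →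
      (∀ k, 0 ≤ T k) → Tendsto (fun k => T k * Real.sqrt (Real.log (n k) ^ 3)) atTop (𝓝 0) →
      Tendsto (fun k => proportion (H (n k)) (T k)) atTop (𝓝 (1 / 2)) →
      (∀ k, IsMollifier δ D (n k) (H (n k)) (x k)) → ∀ᶠ k in atTop, mean (H (n k)) (fun f =>
        ((H (n k)).value f * poly (n k) (H (n k)) (x k) f -
          open Classical in if T k < (H (n k)).value f then 2 else 0) ^ 2) ≤ 6 * δ) := by
  classical
  have hvn : ∀ᶠ N in primes, ∀ f, 0 ≤ (H N).value f := by
    filter_upwards [ev_known hK] with N h
    exact h.2.1.value_nonneg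
  refine ⟨⟨fun h => ?_, ?_⟩, ⟨fun h => ?_, ?_⟩, ?_⟩
  · -- Q1 fails
    unfold Q1 at h
    push Not at h
    obtain ⟨n, hn, hn1⟩ := exists_seq
      (fun j N => proportion (H N) ((Real.log N) ^ (-((j : ℝ) + 1))))
      (fun j N => proportion_le_one _ _) fun j => h ((j : ℝ) + 1) (by positivity)
    have hlog : Tendsto (fun k => Real.log (n k)) atTop atTop := tlog.comp hn
    have hp : ∀ A : ℝ, 3 / 2 < A →
        Tendsto (fun k => proportion (H (n k)) ((Real.log (n k)) ^ (-A))) atTop (𝓝 (1 / 2)) := by
      intro A hA
      refine tendsto_half hc hK hn (pow_nonneg' hn A) ((small_pow hA).comp hn) tendsto_one_div ?_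
      obtain ⟨k0, hk0⟩ := exists_nat_ge A
      filter_upwards [hlog.eventually_ge_atTop 1, eventually_ge_atTop k0] with k hk hk1
      refine le_trans (proportion_anti _ ?_) (hn1 k)
      have : (k0 : ℝ) ≤ k := by exact_mod_cast hk1
      exact Real.rpow_le_rpow_of_exponent_le hk (by linarith)
    refine ⟨n, hn, fun ε hε => half_band hc hK hn hε ?_ (hp (3 / 2 + 2 * ε) (by linarith)),
      fun A hA => tendsto_compl (hp A hA) (Eventually.of_forall fun k f => not_lt.symm)⟩
    filter_upwards [hlog.eventually_gt_atTop 1] with k hk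
    exact Real.rpow_lt_rpow_of_exponent_lt hk (by linarith)
  · rintro ⟨n, hn, -, hs⟩ ⟨A, hA, hlt⟩
    have hlog : Tendsto (fun k => Real.log (n k)) atTop atTop := tlog.comp hn
    refine absurd hlt (not_lt.2 ?_)
    have h1 := (hs (max A 2) (lt_max_of_lt_right (by norm_num))).const_sub 1
    rw [show (1 : ℝ) - 1 / 2 = 1 / 2 by norm_num] at h1
    refine liminf_le_half (fun N => proportion_nonneg _ _) hn h1 ?_
    filter_upwards [hlog.eventually_ge_atTop 1] with k hk
    refine le_trans (proportion_anti _ ?_) (add_le_one fun f hf => not_lt.2 hf)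
    exact Real.rpow_le_rpow_of_exponent_le hk (neg_le_neg (le_max_left _ _))
  · -- the weaker question fails
    unfold Q0 at h
    push Not at h
    obtain ⟨n, hn, hn1⟩ := exists_seq (fun _ N => proportion (H N) 0)
      (fun j N => proportion_le_one _ _) fun j => h
    have hlog : Tendsto (fun k => Real.log (n k)) atTop atTop := tlog.comp hn
    have hp : Tendsto (fun k => proportion (H (n k)) 0) atTop (𝓝 (1 / 2)) := by
      refine tendsto_half hc hK hn (Eventually.of_forall fun k => le_rfl) ?_ tendsto_one_div
        (Eventually.of_forall hn1)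
      simp only [zero_mul]
      exact tendsto_const_nhds
    refine ⟨n, hn, fun ε hε => half_band hc hK hn hε ?_ hp, ?_⟩
    · filter_upwards [hlog.eventually_gt_atTop 1] with k hk
      exact Real.rpow_pos_of_pos (by linarith) _
    · refine tendsto_compl hp ?_
      filter_upwards [hn.eventually hvn] with k hk f
      rw [not_lt]
      exact ⟨fun h => h.le, fun h => le_antisymm h (hk f)⟩
  · rintro ⟨n, hn, -, hs⟩ hlt
    refine absurd hlt (not_lt.2 ?_)
    have h1 := hs.const_sub 1
    rw [show (1 : ℝ) - 1 / 2 = 1 / 2 by norm_num] at h1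
    refine liminf_le_half (fun N => proportion_nonneg _ _) hn h1 ?_
    exact Eventually.of_forall fun k => add_le_one fun f hf => by rw [hf]; exact lt_irrefl 0
  · intro δ D n T x hδ hn hT0 hT hp hx
    obtain ⟨κ, hκ, h⟩ := tail hc hK D (show 0 < δ / 8 by linarith)
    filter_upwards [hn.eventually hvn, hn.eventually h, hT.eventually_lt_const hκ,
      hp.eventually_lt_const (show 1 / 2 < 1 / 2 + δ / 8 by linarith)] with k h1 h2 h3 h4
    have h5 := law_le (hx k) (h2 δ (x k) (hx k) (T k) (hT0 k) h3.le) (hT0 k) h1
    refine h5.trans ?_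
    linarith

end Pool.Agent.Results.MP_cc4f83_nt.HalfHalfLaw
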